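import Pool.Agent.X106.RK.Disc

/-! # The lower bound `-1/2 log d_D(z) + C` for the Kobayashi distance fails in `ℂ^n`, `n ≥ 3` -/

namespace Pool.Agent.Results.MP_3c459d_an.LowerBoundFails

open Metric Set Filter Topology Pool.Agent.X106.RK

/-- the distance to the boundary is at most the distance to any point outside -/
lemma infDist_frontier_le {n : ℕ} {D : Set (Cn n)} (hD : IsOpen D) {x y : Cn n} (hx : x ∈ D)
    (hy : y ∉ D) : infDist x (frontier D) ≤ dist x y := by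
  obtain ⟨p, hp1, hp2⟩ : (segment ℝ x y ∩ frontier D).Nonempty := by
    by_contra hcon
    rw [Set.not_nonempty_iff_eq_empty] at hcon
    have hpre : IsPreconnected (segment ℝ x y) := (convex_segment x y).isPreconnected
    have hcov : segment ℝ x y ⊆ D ∪ (closure D)ᶜ := by
      intro p hp
      by_cases hpD : p ∈ D
      · exact Or.inl hpD
      · right
        intro hc
        have : p ∈ segment ℝ x y ∩ frontier D := ⟨hp, by
          rw [hD.frontier_eq]; exact ⟨hc, hpD⟩⟩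
        rw [hcon] at this
        exact this
    have hyc : y ∈ (closure D)ᶜ := by
      rcases hcov (right_mem_segment ℝ x y) with h | h
      · exact absurd h hy
      · exact h
    obtain ⟨p, -, hp1, hp2⟩ := hpre D (closure D)ᶜ hD isClosed_closure.isOpen_compl hcov
      ⟨x, left_mem_segment ℝ x y, hx⟩ ⟨y, right_mem_segment ℝ x y, hyc⟩
    exact hp2 (subset_closure hp1)
  have h1 := dist_add_dist_of_mem_segment hp1
  have h2 := infDist_le_dist_of_mem hp2 (x := x)
  have h3 : 0 ≤ dist p y := dist_nonneg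
  linarith

section

variable {n : ℕ} {i0 i1 i2 : Fin n} (h01 : i0 ≠ i1) (h02 : i0 ≠ i2) (h12 : i1 ≠ i2)

include h01 h02 h12

lemma outside {M : ℕ} (hM : 2 ≤ M) : ∃ y : Cn n, y ∉ Dom i0 i1 i2 ∧
    dist (zz (i0 := i0) (i1 := i1) (i2 := i2) M) y ≤ 2 / (M : ℝ) ^ 4 := by
  have hM2 : (2 : ℝ) ≤ M := by exact_mod_cast hM
  have hM0 : (0 : ℝ) < M := by positivity
  obtain ⟨hz0, hz1⟩ := z1_pos hM
  set x : Cn n := zz (i0 := i0) (i1 := i1) (i2 := i2) M with hx
  set c : ℂ := Complex.exp (-Lam M (z1 M : ℂ) / (M : ℂ) ^ 2) with hc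
  have e0 : x i0 = (z1 M : ℂ) * Complex.exp (1 - Lam M (z1 M : ℂ)) := by
    simp [hx, zz, disc2, pt_apply]
  have e1 : x i1 = Complex.exp (Lam M (z1 M : ℂ) / M) := by
    simp [hx, zz, disc2, pt_apply, h01.symm]
  have e2 : x i2 = c := by
    simp [hx, zz, disc2, pt_apply, h02.symm, h12.symm, hc]
  set η : ℝ := 2 / (M : ℝ) ^ 4 with hη
  have hη0 : 0 ≤ η := by positivity
  have hc1 : ‖c‖ ≤ 1 := by
    rw [← e2]; exact (zz_mem h01 h02 h12 hM).1.le
  refine ⟨x + EuclideanSpace.single i2 (c * (η : ℂ)), ?_, ?_⟩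
  · intro hmem
    have hk := hmem.2.2 M
    have f0 : (x + EuclideanSpace.single i2 (c * (η : ℂ))) i0 = x i0 := by
      simp [h02]
    have f1 : (x + EuclideanSpace.single i2 (c * (η : ℂ))) i1 = x i1 := by
      simp [h12]
    have f2 : (x + EuclideanSpace.single i2 (c * (η : ℂ))) i2 = c * ((1 + η : ℝ) : ℂ) := by
      simp [e2]; ring
    have g1 : ‖((1 + η : ℝ) : ℂ)‖ = 1 + η := by
      rw [Complex.norm_real, Real.norm_eq_abs, abs_of_nonneg (by linarith : (0 : ℝ) ≤ 1 + η)]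
    have g2 : ‖(z1 M : ℂ)‖ = z1 M := by
      rw [Complex.norm_real, Real.norm_eq_abs, abs_of_pos hz0]
    rw [f0, f1, f2, e0, e1, n1, n2, norm_mul, hc, n3, g1, g2, mul_pow] at hk
    have hp := prodexp (by omega : 0 < M) (Lam M (z1 M : ℂ)).re M
    rw [div_self hM0.ne', sub_self, zero_pow two_ne_zero, mul_zero, sub_zero] at hp
    have hk2 : z1 M * (1 + η) ^ (M ^ 2) * Real.exp 1 < Real.exp 1 := by
      calc z1 M * (1 + η) ^ (M ^ 2) * Real.exp 1 = z1 M * Real.exp (1 - (Lam M (z1 M : ℂ)).re) *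
            Real.exp ((Lam M (z1 M : ℂ)).re / M) ^ (2 * M) *
            (Real.exp (-(Lam M (z1 M : ℂ)).re / (M : ℝ) ^ 2) ^ (M ^ 2) * (1 + η) ^ (M ^ 2)) := by
              rw [← hp]; ring
        _ < Real.exp 1 := hk
    have hk3 : z1 M * (1 + η) ^ (M ^ 2) < 1 := by
      have := Real.exp_pos 1
      by_contra hcon
      push Not at hcon
      nlinarith
    have hb : 1 + ((M ^ 2 : ℕ) : ℝ) * η ≤ (1 + η) ^ (M ^ 2) :=
      one_add_mul_le_pow (by linarith) _
    have hb2 : ((M ^ 2 : ℕ) : ℝ) * η = 2 / (M : ℝ) ^ 2 := by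
      rw [hη]; push_cast; field_simp
    rw [hb2] at hb
    have hb3 : z1 M * (1 + 2 / (M : ℝ) ^ 2) < 1 :=
      lt_of_le_of_lt (mul_le_mul_of_nonneg_left hb hz0.le) hk3
    unfold z1 at hb3
    have hb4 : (1 - 1 / (M : ℝ) ^ 2) * (1 + 2 / (M : ℝ) ^ 2) =
        1 + ((M : ℝ) ^ 2 - 2) / (M : ℝ) ^ 4 := by field_simp; ring
    rw [hb4] at hb3
    have hb5 : 0 ≤ ((M : ℝ) ^ 2 - 2) / (M : ℝ) ^ 4 := by
      apply div_nonneg _ (by positivity)
      nlinarith
    linarith
  · rw [dist_eq_norm]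
    have : x - (x + EuclideanSpace.single i2 (c * (η : ℂ))) =
        -EuclideanSpace.single i2 (c * (η : ℂ)) := by abel
    rw [this, norm_neg, PiLp.norm_single, norm_mul, Complex.norm_real, Real.norm_eq_abs,
      abs_of_nonneg hη0]
    exact mul_le_of_le_one_left hη0 hc1

lemma chain {z₀ : Cn n} (hz₀ : z₀ ∈ Dom i0 i1 i2) : ∃ C : ℝ, ∀ M : ℕ, 2 ≤ M →
    kobayashi (Dom i0 i1 i2) z₀ (zz (i0 := i0) (i1 := i1) (i2 := i2) M) ≤
      C + poincare 0 ((Real.exp (-(((M : ℝ) + 1) / M ^ 2)) : ℝ) : ℂ) + poincare 0 (z1 M : ℂ) := by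
  -- a dilation
  obtain ⟨ρ, hρ0, hρ1, hρ2⟩ : ∃ ρ : ℝ, 0 < ρ ∧ ρ < 1 ∧ (ρ⁻¹ : ℝ) • z₀ ∈ Dom i0 i1 i2 := by
    have hcont : ContinuousAt (fun ρ : ℝ => (ρ⁻¹ : ℝ) • z₀) 1 := by
      have h1 : ContinuousAt (fun ρ : ℝ => ρ⁻¹) 1 := continuousAt_inv₀ one_ne_zero
      exact h1.smul continuousAt_const
    have hmem : ∀ᶠ ρ : ℝ in 𝓝 1, (ρ⁻¹ : ℝ) • z₀ ∈ Dom i0 i1 i2 := by
      refine hcont.eventually_mem ?_
      simpa using (dom_open i0 i1 i2).mem_nhds hz₀
    obtain ⟨ε, hε, hε'⟩ := Metric.eventually_nhds_iff.mp hmem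
    refine ⟨max (1 - ε / 2) (1 / 2), by positivity, max_lt (by linarith) (by norm_num), hε' ?_⟩
    rw [Real.dist_eq, abs_lt]
    constructor
    · have := le_max_left (1 - ε / 2) (1 / 2 : ℝ)
      linarith
    · have : max (1 - ε / 2) (1 / 2 : ℝ) < 1 := max_lt (by linarith) (by norm_num)
      linarith
  refine ⟨poincare (ρ : ℂ) 0, fun M hM => kobayashi_le ?_⟩
  set τ : ℝ := Real.exp (-(((M : ℝ) + 1) / M ^ 2)) with hτ
  have hτ0 : 0 < τ := Real.exp_pos _
  have hτ1 : τ < 1 := Real.exp_lt_one_iff.mpr (by linarith [(exps hM).2.1])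
  obtain ⟨hz0, hz1⟩ := z1_pos hM
  set f0 : ℂ → Cn n := fun s => s • ((ρ⁻¹ : ℝ) • z₀) with hf0
  refine ⟨3, fun j => match j with
      | 0 => z₀
      | 1 => 0
      | 2 => disc2 (i0 := i0) (i1 := i1) (i2 := i2) M 0
      | _ => zz (i0 := i0) (i1 := i1) (i2 := i2) M,
    fun j => match j with
      | 0 => f0
      | 1 => disc1 (i0 := i0) (i1 := i1) (i2 := i2) M
      | _ => disc2 (i0 := i0) (i1 := i1) (i2 := i2) M,
    fun j => match j with
      | 0 => (ρ : ℂ)
      | _ => 0,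
    fun j => match j with
      | 0 => 0
      | 1 => (τ : ℂ)
      | _ => (z1 M : ℂ), rfl, rfl, ?_, ?_⟩
  · intro j hj
    interval_cases j
    · refine ⟨⟨?_, ?_⟩, ?_, ?_, ?_, ?_⟩
      · change DifferentiableOn ℂ f0 (ball 0 1)
        rw [hf0]
        exact (differentiable_id.smul_const _).differentiableOn
      · intro s hs
        change f0 s ∈ Dom i0 i1 i2
        refine dom_mono i0 i1 i2 hρ2 fun j => ?_
        have h1 : (f0 s) j = s * ((ρ⁻¹ : ℝ) • z₀) j := rfl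
        rw [h1, norm_mul]
        have : ‖s‖ < 1 := by simpa using hs
        exact mul_le_of_le_one_left (norm_nonneg _) this.le
      · change ‖(ρ : ℂ)‖ < 1
        rw [Complex.norm_real, Real.norm_eq_abs, abs_of_pos hρ0]; exact hρ1
      · change ‖(0 : ℂ)‖ < 1
        simp
      · change f0 (ρ : ℂ) = z₀
        ext j
        have h1 : (f0 (ρ : ℂ)) j = (ρ : ℂ) * ((ρ⁻¹ : ℝ) • z₀ j) := rfl
        rw [h1, Complex.real_smul, ← mul_assoc]
        push_cast
        rw [mul_inv_cancel₀ (by exact_mod_cast hρ0.ne'), one_mul]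
      · change f0 0 = 0
        simp [hf0]
    · refine ⟨⟨disc1_diff M _, ?_⟩, ?_, ?_, ?_, ?_⟩
      · intro s hs
        exact disc1_mem h01 h02 h12 hM (by simpa using hs)
      · change ‖(0 : ℂ)‖ < 1
        simp
      · change ‖(τ : ℂ)‖ < 1
        rw [Complex.norm_real, Real.norm_eq_abs, abs_of_pos hτ0]; exact hτ1
      · change disc1 (i0 := i0) (i1 := i1) (i2 := i2) M 0 = 0
        exact disc1_zero M
      · change disc1 (i0 := i0) (i1 := i1) (i2 := i2) M (τ : ℂ) =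
          disc2 (i0 := i0) (i1 := i1) (i2 := i2) M 0
        exact disc1_tau M hM
    · refine ⟨⟨disc2_diff M _, ?_⟩, ?_, ?_, ?_, ?_⟩
      · intro s hs
        exact disc2_mem h01 h02 h12 hM (by simpa using hs)
      · change ‖(0 : ℂ)‖ < 1
        simp
      · change ‖(z1 M : ℂ)‖ < 1
        rw [Complex.norm_real, Real.norm_eq_abs, abs_of_pos hz0]; exact hz1
      · rfl
      · rfl
  · rw [Finset.sum_range_succ, Finset.sum_range_succ, Finset.sum_range_one]
    rfl

lemma estimate {z₀ : Cn n} (hz₀ : z₀ ∈ Dom i0 i1 i2) : ∃ C : ℝ, ∀ M : ℕ, 2 ≤ M →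
    kobayashi (Dom i0 i1 i2) z₀ (zz (i0 := i0) (i1 := i1) (i2 := i2) M) +
      1 / 2 * Real.log (infDist (zz (i0 := i0) (i1 := i1) (i2 := i2) M)
        (frontier (Dom i0 i1 i2))) ≤ C - 1 / 2 * Real.log M := by
  obtain ⟨C, hC⟩ := chain h01 h02 h12 hz₀
  refine ⟨C + 1 / 2 * Real.log 16, fun M hM => ?_⟩
  have hM2 : (2 : ℝ) ≤ M := by exact_mod_cast hM
  have hM0 : (0 : ℝ) < M := by positivity
  have h1 := hC M hM
  obtain ⟨hz0, hz1⟩ := z1_pos hM
  obtain ⟨-, hx0, hx1, hx2⟩ := exps hM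
  set x : ℝ := ((M : ℝ) + 1) / M ^ 2 with hx
  have hτ0 : 0 < Real.exp (-x) := Real.exp_pos _
  have hτ1 : Real.exp (-x) < 1 := Real.exp_lt_one_iff.mpr (by linarith)
  rw [poincare_zero _ hτ0.le, poincare_zero _ hz0.le] at h1
  -- first logarithm
  have hlow : 1 / (2 * (M : ℝ)) ≤ 1 - Real.exp (-x) := by
    have h2 : 1 + x ≤ Real.exp x := by linarith [Real.add_one_le_exp x]
    have h3 : Real.exp (-x) ≤ 1 / (1 + x) := by
      rw [Real.exp_neg, ← one_div]
      exact one_div_le_one_div_of_le (by linarith) h2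
    have h4 : 1 - 1 / (1 + x) = x / (1 + x) := by field_simp; ring
    have h5 : x / 2 ≤ x / (1 + x) := by
      apply div_le_div_of_nonneg_left hx0.le (by linarith) (by linarith)
    have h6 : 1 / (2 * (M : ℝ)) = (1 / (M : ℝ)) / 2 := by field_simp
    rw [h6]
    linarith
  have hlog1 : Real.log ((1 + Real.exp (-x)) / (1 - Real.exp (-x))) ≤ Real.log (4 * M) := by
    refine Real.log_le_log (div_pos (by linarith) (by linarith)) ?_
    rw [div_le_iff₀ (by linarith)]
    have : 4 * (M : ℝ) * (1 / (2 * M)) = 2 := by field_simp; norm_num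
    nlinarith
  have hlog2 : Real.log ((1 + z1 M) / (1 - z1 M)) ≤ Real.log (2 * (M : ℝ) ^ 2) := by
    refine Real.log_le_log (div_pos (by linarith) (by linarith)) ?_
    rw [div_le_iff₀ (by linarith)]
    have : 1 - z1 M = 1 / (M : ℝ) ^ 2 := by unfold z1; ring
    rw [this]
    have h2 : 2 * (M : ℝ) ^ 2 * (1 / (M : ℝ) ^ 2) = 2 := by field_simp
    linarith
  -- the distance to the boundary
  obtain ⟨y, hy, hdist⟩ := outside h01 h02 h12 hM
  have hmem := zz_mem h01 h02 h12 hM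
  have hopen := dom_open i0 i1 i2
  have hd1 := (infDist_frontier_le hopen hmem hy).trans hdist
  have hne : (frontier (Dom i0 i1 i2)).Nonempty := by
    rw [Set.nonempty_iff_ne_empty]
    intro hemp
    have hcl : IsClopen (Dom i0 i1 i2) := isClopen_iff_frontier_eq_empty.mpr hemp
    rcases isClopen_iff.mp hcl with h | h
    · rw [h] at hmem; exact hmem
    · rw [h] at hy; exact hy (mem_univ _)
  have hd0 : 0 < infDist (zz (i0 := i0) (i1 := i1) (i2 := i2) M) (frontier (Dom i0 i1 i2)) := by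
    rw [← isClosed_frontier.notMem_iff_infDist_pos hne]
    intro h
    rw [hopen.frontier_eq] at h
    exact h.2 hmem
  have hlog3 := Real.log_le_log hd0 hd1
  have e1 : Real.log (4 * M) = Real.log 4 + Real.log M := Real.log_mul (by norm_num) hM0.ne'
  have e2 : Real.log (2 * (M : ℝ) ^ 2) = Real.log 2 + 2 * Real.log M := by
    rw [Real.log_mul (by norm_num) (by positivity), Real.log_pow]; push_cast; ring
  have e3 : Real.log (2 / (M : ℝ) ^ 4) = Real.log 2 - 4 * Real.log M := by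
    rw [Real.log_div (by norm_num) (by positivity), Real.log_pow]; push_cast; ring
  have e4 : Real.log 16 = Real.log 4 + Real.log 2 + Real.log 2 := by
    rw [← Real.log_mul (by norm_num) (by norm_num), ← Real.log_mul (by norm_num) (by norm_num)]
    norm_num
  rw [e1] at hlog1
  rw [e2] at hlog2
  rw [e3] at hlog3
  rw [e4]
  linarith

end

/-- For every `n ≥ 3` there are a bounded pseudoconvex complete Reinhardt domain `D` in `ℂ^n`, a
boundary point `ζ` with no zero coordinate and a sequence `z_m` in `D` tending to `ζ` such that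
`k_D(z₀, z_m) + 1/2 log d_D(z_m)` tends to `-∞`, for every `z₀` in `D`. -/
theorem result (n : ℕ) (hn : 3 ≤ n) : ∃ D : Set (Cn n), IsReinhardtDomain D ∧ IsPseudoconvex D ∧
    Bornology.IsBounded D ∧ (∀ z ∈ D, ∀ y : Cn n, (∀ j, ‖y j‖ ≤ ‖z j‖) → y ∈ D) ∧
    ∃ ζ ∈ frontier D, (∀ j, ζ j ≠ 0) ∧ ∃ z : ℕ → Cn n, (∀ m, z m ∈ D) ∧
      Tendsto z atTop (𝓝 ζ) ∧ ∀ z₀ ∈ D,
        Tendsto (fun m => kobayashi D z₀ (z m) + 1 / 2 * Real.log (infDist (z m) (frontier D)))
          atTop atBot := by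
  set i0 : Fin n := ⟨0, by omega⟩ with hi0
  set i1 : Fin n := ⟨1, by omega⟩ with hi1
  set i2 : Fin n := ⟨2, by omega⟩ with hi2
  have h01 : i0 ≠ i1 := by simp [hi0, hi1]
  have h02 : i0 ≠ i2 := by simp [hi0, hi2]
  have h12 : i1 ≠ i2 := by simp [hi1, hi2]
  have hone : pt i0 i1 i2 1 1 1 1 ∉ Dom i0 i1 i2 := by
    intro h
    have h1 := h.1
    have : pt i0 i1 i2 1 1 1 1 i2 = 1 := by simp [pt_apply]
    rw [this] at h1
    simp at h1
  refine ⟨Dom i0 i1 i2, dom_reinhardt i0 i1 i2, dom_pseudoconvex i0 i1 i2, dom_bounded i0 i1 i2,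
    fun z hz y hy => dom_mono i0 i1 i2 hz hy, pt i0 i1 i2 1 1 1 1, ?_, ?_,
    fun m => zz (i0 := i0) (i1 := i1) (i2 := i2) (m + 2), fun m => zz_mem h01 h02 h12 (by omega),
    zz_tendsto, ?_⟩
  · rw [(dom_open i0 i1 i2).frontier_eq]
    refine ⟨?_, hone⟩
    exact mem_closure_of_tendsto zz_tendsto
      (Eventually.of_forall fun m => zz_mem h01 h02 h12 (by omega))
  · intro j
    rw [pt_apply]
    split_ifs <;> exact one_ne_zero
  · intro z₀ hz₀
    obtain ⟨C, hC⟩ := estimate h01 h02 h12 hz₀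
    have hN : Tendsto (fun m : ℕ => ((m + 2 : ℕ) : ℝ)) atTop atTop :=
      tendsto_natCast_atTop_atTop.comp (tendsto_add_atTop_nat 2)
    have hlog : Tendsto (fun m : ℕ => C - 1 / 2 * Real.log ((m + 2 : ℕ) : ℝ)) atTop atBot := by
      have h1 : Tendsto (fun m : ℕ => Real.log ((m + 2 : ℕ) : ℝ)) atTop atTop :=
        Real.tendsto_log_atTop.comp hN
      have h2 : Tendsto (fun m : ℕ => 1 / 2 * Real.log ((m + 2 : ℕ) : ℝ)) atTop atTop :=
        h1.const_mul_atTop (by norm_num)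
      have h3 := tendsto_neg_atTop_atBot.comp h2
      have h4 := tendsto_atBot_add_const_left atTop C h3
      refine h4.congr fun m => ?_
      simp only [Function.comp_apply]
      ring
    exact tendsto_atBot_mono (fun m => hC (m + 2) (by omega)) hlog

end Pool.Agent.Results.MP_3c459d_an.LowerBoundFails
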